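import Pool.Agent.Lib.MP_6547d0_mp.R.Main
import Pool.Agent.Lib.MP_6547d0_mp.E.Ext

set_option autoImplicit false

namespace Pool.Agent.Results.MP_6547d0_mp.GapRatio

open Pool.Agent.Lib.MP_6547d0_mp

theorem result (m : ℕ) (hm : 3 ≤ m) (κ : ℝ) :
    (∀ (L : ℝ) (V : ℝ → ℝ), 0 < L → ConvexOn ℝ (Set.Icc 0 L) V →
      ∀ a b c : ℝ, IsNth L V 1 a → IsNth L V 2 b → IsNth L V m c → c - a ≤ κ * (b - a)) ↔
      ((m : ℝ) ^ 2 - 1) / 3 ≤ κ := by
  refine ⟨fun h => ?_, fun h L V hL hV a b c ha hb hc => by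
    obtain ⟨W, cW, hW, e⟩ := E.exists_cont hL hV
    rw [← e] at ha hb hc
    exact (G.ratio_le hL hm cW hW ha hb hc).trans
      (mul_le_mul_of_nonneg_right h (sub_pos.2 (G.nth_lt one_lt_two ha hb)).le)⟩
  have c0 : ContinuousOn (fun _ : ℝ => (0 : ℝ)) (Set.Icc 0 Real.pi) := continuousOn_const
  obtain ⟨a, ha⟩ := G.nth_exists Real.pi_pos c0 le_rfl
  obtain ⟨b, hb⟩ := G.nth_exists Real.pi_pos c0 one_le_two
  obtain ⟨c, hc⟩ := G.nth_exists Real.pi_pos c0 (show 1 ≤ m by omega)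
  have := h _ _ Real.pi_pos (convexOn_const _ (convex_Icc _ _)) a b c ha hb hc
  rw [G.nth_const Real.pi_pos (fun _ _ => rfl) ha, G.nth_const Real.pi_pos (fun _ _ => rfl) hb,
    G.nth_const Real.pi_pos (fun _ _ => rfl) hc] at this
  simp only [mul_div_assoc, div_self (pow_pos Real.pi_pos 2).ne'] at this
  push_cast at this
  linarith

end Pool.Agent.Results.MP_6547d0_mp.GapRatio
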