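import Pool.Agent.Lib.MP_6547d0_mp.G.Main
import Pool.Agent.Lib.MP_6547d0_mp.G.Conv
import Pool.Agent.Lib.MP_6547d0_mp.E.Ext

set_option autoImplicit false

namespace Pool.Agent.Results.MP_6547d0_mp.Gaps

open Pool.Agent.Lib.MP_6547d0_mp

theorem result (n m : ℕ) (hn : 1 ≤ n) (hnm : n < m) :
    (∀ (L : ℝ) (V : ℝ → ℝ), 0 < L → ConvexOn ℝ (Set.Icc 0 L) V →
      ∀ a b : ℝ, IsNth L V n a → IsNth L V m b →
        ((m : ℝ) ^ 2 - (n : ℝ) ^ 2) * Real.pi ^ 2 / L ^ 2 ≤ b - a) ↔ n = 1 := by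
  refine ⟨fun h => ?_, ?_⟩
  · by_contra h1
    obtain ⟨t, a, b, ha, hb, hlt⟩ := G.conv (show 2 ≤ n by omega) hnm
    have := h Real.pi _ Real.pi_pos
      ⟨convex_Icc _ _, fun x _ y _ α β _ _ _ => le_of_eq (by simp only [smul_eq_mul]; ring)⟩ a b ha hb
    rw [mul_div_assoc, div_self (by positivity), mul_one] at this
    linarith
  · rintro rfl L V hL hV a b ha hb
    obtain ⟨W, cW, hW, e⟩ := E.exists_cont hL hV
    rw [← e] at ha hb
    simpa using G.lower hL hnm cW hW ha hb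

end Pool.Agent.Results.MP_6547d0_mp.Gaps
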