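import Pool.Agent.Lib.MP_6547d0_mp.Spec
import Pool.Agent.Lib.MP_6547d0_mp.Sharp

/-! Sharp eigenvalue ratios for nonnegative potentials with at most `w` wells. -/

set_option autoImplicit false

namespace Pool.Agent.Results.MP_6547d0_mp.Wells

open Pool.Agent.Lib.MP_6547d0_mp Set Real

theorem isEig_congr {L : ℝ} {V W : ℝ → ℝ} (h : EqOn V W (Icc 0 L)) (μ : ℝ) :
    IsEig L V μ ↔ IsEig L W μ := by
  unfold IsEig
  refine exists_congr fun y => ?_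
  have : (∀ x ∈ Ioo 0 L, -deriv (deriv y) x + V x * y x = μ * y x) ↔
      ∀ x ∈ Ioo 0 L, -deriv (deriv y) x + W x * y x = μ * y x :=
    forall₂_congr fun x hx => by rw [h (Ioo_subset_Icc_self hx)]
  rw [this]

theorem upper {w n m : ℕ} {τ : ℝ} (hτ : 1 ≤ τ)
    (hk : ∀ k : Fin w → ℕ, ∑ j, k j = n → m ≤ ∑ j, ⌊τ * k j⌋₊) {L M : ℝ} {V : ℝ → ℝ}
    (hL : 0 < L) (hV : Bd V M) (hW : Wells w L V) {a b : ℝ} (ha : IsNth L V n a)
    (hb : IsNth L V m b) : b ≤ τ ^ 2 * a := by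
  obtain ⟨e, φ, hφ, he, hn⟩ := spec hV hL
  obtain ⟨i, rfl, rfl⟩ := (hn _ _).1 ha
  obtain ⟨j, rfl, rfl⟩ := (hn _ _).1 hb
  obtain ⟨β, c, h0, h1, h2⟩ := hW
  rw [← mul_pow]
  refine pow_le_pow_left₀ (he j).1.le ?_ 2
  by_contra hlt
  push Not at hlt
  obtain ⟨Z, hZ1, hZ2⟩ := exists_between hlt
  have hi := (he i).1
  have hZ : 0 < Z := lt_trans (by positivity) hZ1
  obtain ⟨k, hk1, hk2⟩ := assembly hV hi hτ hZ1 (hφ _ hi).2 (hφ _ hZ).2 (hφ _ hi).1 (hφ _ hZ).1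
    (he i).2 h0 h1 h2
  have h3 := hk (fun j => k j) (by rw [← hk1]; exact Fin.sum_univ_eq_sum_range k w)
  rw [Fin.sum_univ_eq_sum_range (fun j => ⌊τ * k j⌋₊) w] at h3
  have h4 := ph_lt hV hZ hZ2 hL (hφ _ hZ).2 (hφ _ (he j).1).2 (hφ _ hZ).1 (hφ _ (he j).1).1
  rw [(he j).2] at h4
  have h5 : ((j + 1 : ℕ) : ℝ) ≤ (∑ i ∈ Finset.range w, ⌊τ * k i⌋₊ : ℕ) := by exact_mod_cast h3
  linarith [mul_le_mul_of_nonneg_right h5 pi_pos.le]

theorem result (w n m : ℕ) (hn : 1 ≤ n) (τ : ℝ) (hτ : 1 ≤ τ) :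
    (∀ (L : ℝ) (V : ℝ → ℝ), 0 < L → ContinuousOn V (Set.Icc 0 L) → (∀ x ∈ Set.Icc 0 L, 0 ≤ V x) →
      Wells w L V → ∀ a b : ℝ, IsNth L V n a → IsNth L V m b → b ≤ τ ^ 2 * a) ↔
    ∀ k : Fin w → ℕ, ∑ j, k j = n → m ≤ ∑ j, ⌊τ * (k j : ℝ)⌋₊ := by
  constructor
  · intro H k hk
    by_contra hm
    push Not at hm
    have hw : 1 ≤ w := by
      rcases Nat.eq_zero_or_pos w with rfl | h
      · simp at hk; omega
      · exact h
    have hτ0 : 0 < τ := by linarith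
    obtain ⟨k', hk'⟩ : ∃ k' : ℕ → ℕ, ∀ j : Fin w, k j = k' j :=
      ⟨fun j => if h : j < w then k ⟨j, h⟩ else 0, fun j => by simp⟩
    simp only [hk'] at hk hm
    rw [Fin.sum_univ_eq_sum_range k' w] at hk
    rw [Fin.sum_univ_eq_sum_range (fun j => ⌊τ * k' j⌋₊) w] at hm
    obtain ⟨L, M, V, hL, hV, hW, h1, h2⟩ := sharp hτ hw k'
    obtain ⟨e, φ, hφ, he, hN⟩ := spec hV hL
    obtain ⟨i, rfl⟩ : ∃ i, n = i + 1 := ⟨n - 1, by omega⟩
    obtain ⟨j, rfl⟩ : ∃ j, m = j + 1 := ⟨m - 1, by omega⟩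
    have h3 := H L V hL hV.1.continuousOn (fun x _ => (hV.2 x).1) hW _ _
      ((hN _ _).2 ⟨i, rfl, rfl⟩) ((hN _ _).2 ⟨j, rfl, rfl⟩)
    have hi := (he i).1
    have hj := (he j).1
    have h4 : e i ≤ 1 := by
      by_contra h
      push Not at h
      have g1 := ph_lt hV one_pos h hL (hφ _ one_pos).2 (hφ _ hi).2 (hφ _ one_pos).1 (hφ _ hi).1
      have g2 := h1 _ (hφ _ one_pos).1 (hφ _ one_pos).2
      rw [(he i).2] at g1
      rw [hk] at g2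
      linarith
    have h5 : τ < e j := by
      by_contra h
      push Not at h
      have g2 := h2 _ (hφ _ hτ0).1 (hφ _ hτ0).2
      have g3 : ((∑ i ∈ Finset.range w, ⌊τ * k' i⌋₊ + 1 : ℕ) : ℝ) ≤ (j + 1 : ℕ) := by
        exact_mod_cast hm
      have g4 := mul_le_mul_of_nonneg_right g3 pi_pos.le
      rcases h.eq_or_lt with h | h
      · rw [← h, (he j).2] at g2
        rw [← h] at g4
        linarith
      · have g1 := ph_lt hV hj h hL (hφ _ hj).2 (hφ _ hτ0).2 (hφ _ hj).1 (hφ _ hτ0).1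
        rw [(he j).2] at g1
        linarith
    have h6 : e i ^ 2 ≤ 1 := pow_le_one₀ hi.le h4
    have h7 : τ ^ 2 < e j ^ 2 := pow_lt_pow_left₀ h5 hτ0.le two_ne_zero
    nlinarith [sq_nonneg τ]
  · intro hk L V hL hc h0 hW a b ha hb
    have hcl : ∀ t, max 0 (min t L) ∈ Icc 0 L := fun t =>
      ⟨le_max_left _ _, max_le hL.le (min_le_right _ _)⟩
    obtain ⟨M, hM⟩ := isCompact_Icc.exists_bound_of_continuousOn hc
    have hV : Bd (fun t => V (max 0 (min t L))) M :=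
      ⟨hc.comp_continuous (by fun_prop) hcl, fun t =>
        ⟨h0 _ (hcl t), (le_abs_self _).trans (hM _ (hcl t))⟩⟩
    have hE : EqOn V (fun t => V (max 0 (min t L))) (Icc 0 L) := fun t ht => by
      simp only [min_eq_left ht.2, max_eq_right ht.1]
    have hI : ∀ n a, IsNth L V n a → IsNth L (fun t => V (max 0 (min t L))) n a := fun n a h => by
      unfold IsNth at h ⊢
      simpa only [isEig_congr hE] using h
    refine upper hτ hk hL hV ?_ (hI _ _ ha) (hI _ _ hb)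
    obtain ⟨β, c, h1, h2, h3⟩ := hW
    have hb : ∀ j < w, β j ≤ β (j + 1) := fun j hj => (h3 j hj).1.trans (h3 j hj).2.1
    refine ⟨β, c, h1, h2, fun j hj => ?_⟩
    obtain ⟨g1, g2, g3, g4⟩ := h3 j hj
    have g5 : 0 ≤ β j := h1 ▸ b_mono hb (Nat.zero_le j) hj.le
    have g6 : β (j + 1) ≤ L := h2 ▸ b_mono hb hj le_rfl
    exact ⟨g1, g2, g3.congr (hE.mono (Icc_subset_Icc g5 (g2.trans g6))),
      g4.congr (hE.mono (Icc_subset_Icc (g5.trans g1) g6))⟩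

end Pool.Agent.Results.MP_6547d0_mp.Wells
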